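import Mathlib

namespace Pool.Agent.Results.MP_bbc03c_al.RightAltCE

/-- The associator. -/
def assoc {R : Type} [NonAssocRing R] (a b c : R) : R := (a * b) * c - a * (b * c)

/-- The center `Z(R) = N(R) ∩ K(R)`. -/
def center (R : Type) [NonAssocRing R] : Set R :=
  {x | (∀ a b : R, assoc x a b = 0 ∧ assoc a x b = 0 ∧ assoc a b x = 0) ∧
    ∀ a : R, x * a - a * x = 0}

/-- `Z(R) r ∩ Z(R) ≠ 0` for every nonzero `r`. -/
def CentrallyEssential (R : Type) [NonAssocRing R] : Prop :=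
  ∀ r : R, r ≠ 0 → ∃ x ∈ center R, x * r ∈ center R ∧ x * r ≠ 0

/-- Right-alternative rings. -/
def RightAlternative (R : Type) [NonAssocRing R] : Prop := ∀ a b : R, assoc a b b = 0

/-- Alternative rings. -/
def IsAlternativeRing (R : Type) [NonAssocRing R] : Prop :=
  ∀ a b : R, assoc a a b = 0 ∧ assoc a b b = 0

/-- Coordinates with respect to `1, a, b, c, d` (integers) and `s` (modulo `2`). -/
def Ex : Type := (Fin 5 → ℤ) × ZMod 2

instance : AddCommGroup Ex := inferInstanceAs (AddCommGroup ((Fin 5 → ℤ) × ZMod 2))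

/-- The product with `a a = c`, `a b = b a = d`, `c b = b c = d a = s`, other products zero. -/
def mulEx (x y : (Fin 5 → ℤ) × ZMod 2) : (Fin 5 → ℤ) × ZMod 2 :=
  (![x.1 0 * y.1 0, x.1 0 * y.1 1 + x.1 1 * y.1 0, x.1 0 * y.1 2 + x.1 2 * y.1 0,
      x.1 0 * y.1 3 + x.1 3 * y.1 0 + x.1 1 * y.1 1,
      x.1 0 * y.1 4 + x.1 4 * y.1 0 + x.1 1 * y.1 2 + x.1 2 * y.1 1],
    (x.1 0 : ZMod 2) * y.2 + x.2 * (y.1 0 : ZMod 2) + (x.1 3 : ZMod 2) * (y.1 2 : ZMod 2) +
      (x.1 2 : ZMod 2) * (y.1 3 : ZMod 2) + (x.1 4 : ZMod 2) * (y.1 1 : ZMod 2))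

instance : NonAssocRing Ex :=
  { (inferInstance : AddCommGroup Ex) with
    mul := mulEx
    one := ((![1, 0, 0, 0, 0], 0) : (Fin 5 → ℤ) × ZMod 2)
    left_distrib := fun (x y z : (Fin 5 → ℤ) × ZMod 2) =>
      show mulEx x (y + z) = mulEx x y + mulEx x z by
        ext i
        · fin_cases i <;> simp [mulEx] <;> ring
        · simp [mulEx]; ring
    right_distrib := fun (x y z : (Fin 5 → ℤ) × ZMod 2) =>
      show mulEx (x + y) z = mulEx x z + mulEx y z by
        ext i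
        · fin_cases i <;> simp [mulEx] <;> ring
        · simp [mulEx]; ring
    zero_mul := fun (x : (Fin 5 → ℤ) × ZMod 2) => show mulEx 0 x = 0 by
      ext i
      · fin_cases i <;> simp [mulEx]
      · simp [mulEx]
    mul_zero := fun (x : (Fin 5 → ℤ) × ZMod 2) => show mulEx x 0 = 0 by
      ext i
      · fin_cases i <;> simp [mulEx]
      · simp [mulEx]
    one_mul := fun (x : (Fin 5 → ℤ) × ZMod 2) => show mulEx (![1, 0, 0, 0, 0], 0) x = x by
      ext i
      · fin_cases i <;> simp [mulEx]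
      · simp [mulEx]
    mul_one := fun (x : (Fin 5 → ℤ) × ZMod 2) => show mulEx x (![1, 0, 0, 0, 0], 0) = x by
      ext i
      · fin_cases i <;> simp [mulEx]
      · simp [mulEx] }

lemma assoc_eq (x y z : (Fin 5 → ℤ) × ZMod 2) : assoc (R := Ex) x y z =
    ((0, (x.1 1 : ZMod 2) * ((y.1 1 : ZMod 2) * (z.1 2 : ZMod 2) + (y.1 2 : ZMod 2) * (z.1 1 : ZMod 2))) :
      (Fin 5 → ℤ) × ZMod 2) := by
  show mulEx (mulEx x y) z - mulEx x (mulEx y z) = _
  ext i
  · fin_cases i <;> simp [mulEx] <;> ring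
  · simp [mulEx]; ring

lemma mem_center (x : (Fin 5 → ℤ) × ZMod 2) (h1 : (x.1 1 : ZMod 2) = 0) (h2 : (x.1 2 : ZMod 2) = 0)
    (h4 : (x.1 4 : ZMod 2) = 0) : (show Ex from x) ∈ center Ex := by
  refine ⟨fun a b => ⟨?_, ?_, ?_⟩, fun (a : (Fin 5 → ℤ) × ZMod 2) => ?_⟩
  · rw [assoc_eq, h1, zero_mul]; rfl
  · rw [assoc_eq, h1, h2]; simp only [zero_mul, add_zero, mul_zero]; rfl
  · rw [assoc_eq, h1, h2]; simp only [add_zero, mul_zero]; rfl
  · show mulEx x a - mulEx a x = 0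
    ext i
    · fin_cases i <;> simp [mulEx] <;> ring
    · simp [mulEx, h1, h2, h4]; ring

theorem result : ∃ (R : Type) (_ : NonAssocRing R),
    RightAlternative R ∧ ¬ IsAlternativeRing R ∧ CentrallyEssential R := by
  have h2 : (2 : ZMod 2) = 0 := rfl
  refine ⟨Ex, inferInstance, fun a b => ?_, fun h => ?_, fun (r : (Fin 5 → ℤ) × ZMod 2) hr => ?_⟩
  · rw [assoc_eq, mul_comm (_ : ZMod 2) (Int.cast (b.1 1)), ← two_mul, h2]
    simp only [zero_mul, mul_zero]; rfl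
  · have := (h ((![0, 1, 0, 0, 0], 0) : (Fin 5 → ℤ) × ZMod 2)
      ((![0, 0, 1, 0, 0], 0) : (Fin 5 → ℤ) × ZMod 2)).1
    rw [assoc_eq] at this
    have h1 := congrArg Prod.snd this
    revert h1; decide
  · by_cases h : r.1 = 0
    · refine ⟨1, mem_center (![1, 0, 0, 0, 0], 0) rfl rfl rfl, ?_, ?_⟩
      · rw [one_mul]; exact mem_center r (by simp [h]) (by simp [h]) (by simp [h])
      · rw [one_mul]; exact hr
    · refine ⟨((![2, 0, 0, 0, 0], 0) : (Fin 5 → ℤ) × ZMod 2), mem_center _ rfl rfl rfl,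
        mem_center (mulEx (![2, 0, 0, 0, 0], 0) r) ?_ ?_ ?_, fun h0 => h ?_⟩
      · simp [mulEx, h2]
      · simp [mulEx, h2]
      · simp [mulEx, h2]
      · have h1 : mulEx (![2, 0, 0, 0, 0], 0) r = 0 := h0
        ext i
        have h3 := congrFun (congrArg Prod.fst h1) i
        fin_cases i <;> simpa [mulEx] using h3

end Pool.Agent.Results.MP_bbc03c_al.RightAltCE
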